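import Mathlib

/-!
# A semantically acyclic C2RPQ that is equivalent to no single acyclic C2RPQ

For distinct letters `a`, `b` put `W = (a⁻a + aa⁻)*` and `W' = (b⁻b + bb⁻)*`, and let

  `Q(x,y,z) = (x, aW + b⁻W'b⁻, y) ∧ (y, Wa + bW', z) ∧ (z, W'b + a⁻Wa⁻, x)`.

Then `Q` is equivalent to the union of the two acyclic queries
`(x, aW, y) ∧ (y, Wa, z)` and `(y, bW', z) ∧ (z, W'b, x)`, but to no single acyclic C2RPQ.
-/

namespace Pool.Agent.Results.MP_968ae6_lc.NotSingleAcyclic

/-- A graph database over the alphabet `A`: a finite set `V` of nodes and a set of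
labelled edges; `E u a v` means that `(u, a, v)` is an edge. -/
structure GraphDB (A : Type) where
  /-- the nodes -/
  V : Type
  /-- there are finitely many nodes -/
  finV : Finite V
  /-- the labelled edges -/
  E : V → A → V → Prop

variable {A : Type} {n : ℕ}

/-- One step of a semipath. The letter `a` is encoded as `(a, true)` and the inverse
letter `a⁻` as `(a, false)`. -/
def GraphDB.Step (G : GraphDB A) (u : G.V) (p : A × Bool) (v : G.V) : Prop :=
  (p.2 = true ∧ G.E u p.1 v) ∨ (p.2 = false ∧ G.E v p.1 u)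

/-- `G.Semipath w u v`: there is a semipath from `u` to `v` with label `w`. -/
def GraphDB.Semipath (G : GraphDB A) : List (A × Bool) → G.V → G.V → Prop
  | [], u, v => u = v
  | p :: w, u, v => ∃ t, G.Step u p t ∧ G.Semipath w t v

/-- The evaluation of the 2RPQ `R` over `G`: the pairs joined by a semipath whose label
is in the language of `R`. -/
def GraphDB.Eval (G : GraphDB A) (R : RegularExpression (A × Bool)) (u v : G.V) : Prop :=
  ∃ w ∈ R.matches', G.Semipath w u v

/-- A C2RPQ with `n` free positions: `nvar` variables, a tuple `out` of output variables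
(repetitions are allowed; all other variables are existentially quantified) and a finite
list of atoms `(u, R, v)` where `R` is a regular expression over `A^±`. -/
structure C2RPQ (A : Type) (n : ℕ) where
  /-- number of variables -/
  nvar : ℕ
  /-- the free tuple -/
  out : Fin n → Fin nvar
  /-- the atoms -/
  atoms : List (Fin nvar × RegularExpression (A × Bool) × Fin nvar)

/-- The tuple `a` is an answer of `Q` over `G`. -/
def C2RPQ.Ans (Q : C2RPQ A n) (G : GraphDB A) (a : Fin n → G.V) : Prop :=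
  ∃ h : Fin Q.nvar → G.V, (∀ i, h (Q.out i) = a i) ∧
    ∀ t ∈ Q.atoms, G.Eval t.2.1 (h t.1) (h t.2.2)

/-- The underlying undirected graph of a C2RPQ: distinct variables are adjacent when some
atom joins them. -/
def C2RPQ.graph (Q : C2RPQ A n) : SimpleGraph (Fin Q.nvar) where
  Adj u v := u ≠ v ∧ ∃ R, (u, R, v) ∈ Q.atoms ∨ (v, R, u) ∈ Q.atoms
  symm := ⟨fun _ _ h => ⟨h.1.symm, by
    obtain ⟨R, hR⟩ := h.2
    exact ⟨R, hR.symm⟩⟩⟩
  loopless := ⟨fun _ h => h.1 rfl⟩

/-- A C2RPQ is acyclic when its underlying graph is a forest. -/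
def C2RPQ.Acyclic (Q : C2RPQ A n) : Prop := Q.graph.IsAcyclic

/-- Equivalence of C2RPQs: the same answers over every graph database. -/
def C2RPQ.Equivalent (Q Q' : C2RPQ A n) : Prop :=
  ∀ (G : GraphDB A) (a : Fin n → G.V), Q.Ans G a ↔ Q'.Ans G a

/-- Two C2RPQs have the same free tuple (up to renaming variables): the same positions of
their output tuples carry equal variables. -/
def C2RPQ.SameTuple (P Q : C2RPQ A n) : Prop := ∀ i j, P.out i = P.out j ↔ Q.out i = Q.out j

/-- A C2RPQ is semantically acyclic when it is equivalent to a finite disjunction of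
acyclic C2RPQs with the same free tuple (an acyclic UC2RPQ). -/
def C2RPQ.SemanticallyAcyclic (Q : C2RPQ A n) : Prop :=
  ∃ U : List (C2RPQ A n), (∀ P ∈ U, P.Acyclic ∧ P.SameTuple Q) ∧
    ∀ (G : GraphDB A) (a : Fin n → G.V), Q.Ans G a ↔ ∃ P ∈ U, P.Ans G a

/-! ### Evaluation of regular expressions -/

section eval

variable (G : GraphDB A)

theorem semipath_append (w₁ w₂ : List (A × Bool)) (u v : G.V) :
    G.Semipath (w₁ ++ w₂) u v ↔ ∃ t, G.Semipath w₁ u t ∧ G.Semipath w₂ t v := by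
  induction w₁ generalizing u with
  | nil => simp [GraphDB.Semipath]
  | cons p w ih =>
    simp only [List.cons_append, GraphDB.Semipath, ih]
    constructor
    · rintro ⟨s, h1, t, h2, h3⟩
      exact ⟨t, ⟨s, h1, h2⟩, h3⟩
    · rintro ⟨t, ⟨s, h1, h2⟩, h3⟩
      exact ⟨s, h1, t, h2, h3⟩

theorem eval_add (P R : RegularExpression (A × Bool)) (u v : G.V) :
    G.Eval (P + R) u v ↔ G.Eval P u v ∨ G.Eval R u v := by
  simp only [GraphDB.Eval, RegularExpression.matches'_add]
  constructor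
  · rintro ⟨w, hw | hw, h⟩
    · exact Or.inl ⟨w, hw, h⟩
    · exact Or.inr ⟨w, hw, h⟩
  · rintro (⟨w, hw, h⟩ | ⟨w, hw, h⟩)
    · exact ⟨w, Or.inl hw, h⟩
    · exact ⟨w, Or.inr hw, h⟩

theorem eval_mul (P R : RegularExpression (A × Bool)) (u v : G.V) :
    G.Eval (P * R) u v ↔ ∃ t, G.Eval P u t ∧ G.Eval R t v := by
  simp only [GraphDB.Eval, RegularExpression.matches'_mul, Language.mem_mul]
  constructor
  · rintro ⟨w, ⟨w₁, h₁, w₂, h₂, rfl⟩, h⟩
    obtain ⟨t, ht₁, ht₂⟩ := (semipath_append G _ _ _ _).1 h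
    exact ⟨t, ⟨w₁, h₁, ht₁⟩, ⟨w₂, h₂, ht₂⟩⟩
  · rintro ⟨t, ⟨w₁, h₁, ht₁⟩, ⟨w₂, h₂, ht₂⟩⟩
    exact ⟨w₁ ++ w₂, ⟨w₁, h₁, w₂, h₂, rfl⟩, (semipath_append G _ _ _ _).2 ⟨t, ht₁, ht₂⟩⟩

theorem eval_char (p : A × Bool) (u v : G.V) :
    G.Eval (RegularExpression.char p) u v ↔ G.Step u p v := by
  simp only [GraphDB.Eval, RegularExpression.matches'_char]
  constructor
  · rintro ⟨w, hw, h⟩
    obtain rfl : w = [p] := hw
    obtain ⟨t, h1, h2⟩ := h
    obtain rfl : t = v := h2
    exact h1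
  · intro h
    exact ⟨[p], rfl, v, h, rfl⟩

theorem eval_star (P : RegularExpression (A × Bool)) (u v : G.V) :
    G.Eval P.star u v ↔ Relation.ReflTransGen (G.Eval P) u v := by
  constructor
  · rintro ⟨w, hw, h⟩
    rw [RegularExpression.matches'_star, Language.mem_kstar] at hw
    obtain ⟨L, rfl, hL⟩ := hw
    induction L generalizing u with
    | nil =>
      obtain rfl : u = v := h
      exact Relation.ReflTransGen.refl
    | cons w L ih =>
      rw [List.flatten_cons, semipath_append] at h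
      obtain ⟨t, h1, h2⟩ := h
      exact Relation.ReflTransGen.head ⟨w, hL w (by simp), h1⟩
        (ih t (fun y hy => hL y (by simp [hy])) h2)
  · intro h
    induction h using Relation.ReflTransGen.head_induction_on with
    | refl => exact ⟨[], by simp [Language.nil_mem_kstar], rfl⟩
    | head h1 _ ih =>
      obtain ⟨w, hw, hw'⟩ := h1
      obtain ⟨w₂, hw₂, hw₂'⟩ := ih
      rw [RegularExpression.matches'_star, Language.mem_kstar] at hw₂
      obtain ⟨L, rfl, hL⟩ := hw₂
      refine ⟨w ++ L.flatten, ?_, (semipath_append G _ _ _ _).2 ⟨_, hw', hw₂'⟩⟩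
      rw [RegularExpression.matches'_star, Language.mem_kstar]
      exact ⟨w :: L, by simp, by
        intro y hy
        rcases List.mem_cons.1 hy with rfl | hy
        · exact hw
        · exact hL y hy⟩

end eval

theorem semipath_map {G H : GraphDB A} (φ : G.V → H.V)
    (hφ : ∀ u l v, G.E u l v → H.E (φ u) l (φ v)) (w : List (A × Bool)) (u v : G.V)
    (h : G.Semipath w u v) : H.Semipath w (φ u) (φ v) := by
  induction w generalizing u with
  | nil => exact congrArg φ h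
  | cons p w ih =>
    obtain ⟨t, h1, h2⟩ := h
    refine ⟨φ t, ?_, ih t h2⟩
    rcases h1 with ⟨hp, h1⟩ | ⟨hp, h1⟩
    · exact Or.inl ⟨hp, hφ _ _ _ h1⟩
    · exact Or.inr ⟨hp, hφ _ _ _ h1⟩

theorem eval_map {G H : GraphDB A} (φ : G.V → H.V)
    (hφ : ∀ u l v, G.E u l v → H.E (φ u) l (φ v)) (R : RegularExpression (A × Bool)) (u v : G.V)
    (h : G.Eval R u v) : H.Eval R (φ u) (φ v) := by
  obtain ⟨w, hw, h⟩ := h
  exact ⟨w, hw, semipath_map φ hφ w u v h⟩

/-! ### The queries -/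

section queries

variable (a b : A)

/-- the expression `a` -/
def fw (a : A) : RegularExpression (A × Bool) := RegularExpression.char (a, true)

/-- the expression `a⁻` -/
def bw (a : A) : RegularExpression (A × Bool) := RegularExpression.char (a, false)

/-- the expression `(a⁻a + aa⁻)*` -/
def zig (a : A) : RegularExpression (A × Bool) :=
  (bw a * fw a + fw a * bw a).star

/-- A query with the three variables `x = 0`, `y = 1`, `z = 2`, all of them free. -/
def mk3 (L : List (Fin 3 × RegularExpression (A × Bool) × Fin 3)) : C2RPQ A 3 where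
  nvar := 3
  out := id
  atoms := L

/-- The query `(x, aW + b⁻W'b⁻, y) ∧ (y, Wa + bW', z) ∧ (z, W'b + a⁻Wa⁻, x)`. -/
def theQ : C2RPQ A 3 :=
  mk3 [(0, fw a * zig a + bw b * (zig b * bw b), 1),
       (1, zig a * fw a + fw b * zig b, 2),
       (2, zig b * fw b + bw a * (zig a * bw a), 0)]

/-- The acyclic query `(x, aW, y) ∧ (y, Wa, z)`. -/
def theP₁ : C2RPQ A 3 := mk3 [(0, fw a * zig a, 1), (1, zig a * fw a, 2)]

/-- The acyclic query `(y, bW', z) ∧ (z, W'b, x)`. -/
def theP₂ : C2RPQ A 3 := mk3 [(1, fw b * zig b, 2), (2, zig b * fw b, 0)]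

theorem ans_mk3 (L : List (Fin 3 × RegularExpression (A × Bool) × Fin 3)) (G : GraphDB A)
    (x : Fin 3 → G.V) :
    (mk3 L).Ans G x ↔ ∀ t ∈ L, G.Eval t.2.1 (x t.1) (x t.2.2) := by
  constructor
  · rintro ⟨h, hx, hat⟩
    have e : h = x := funext hx
    subst e
    exact hat
  · intro h
    exact ⟨x, fun _ => rfl, h⟩

end queries

/-! ### Relational reformulation -/

/-- the relation `(a⁻a + aa⁻)*` -/
def Zig {V : Type} (r : V → V → Prop) : V → V → Prop :=
  Relation.ReflTransGen (fun u v => (∃ t, r t u ∧ r t v) ∨ (∃ t, r u t ∧ r v t))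

theorem Zig.symm {V : Type} {r : V → V → Prop} {u v : V} (h : Zig r u v) : Zig r v u := by
  induction h with
  | refl => exact Relation.ReflTransGen.refl
  | tail _ h ih =>
    refine Relation.ReflTransGen.head ?_ ih
    rcases h with ⟨t, h1, h2⟩ | ⟨t, h1, h2⟩
    · exact Or.inl ⟨t, h2, h1⟩
    · exact Or.inr ⟨t, h2, h1⟩

theorem Zig.trans {V : Type} {r : V → V → Prop} {u v w : V} (h : Zig r u v) (h' : Zig r v w) :
    Zig r u w := Relation.ReflTransGen.trans h h'

theorem Zig.co {V : Type} {r : V → V → Prop} {t u v : V} (h : r t u) (h' : r t v) :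
    Zig r u v := Relation.ReflTransGen.single (Or.inl ⟨t, h, h'⟩)

theorem Zig.ct {V : Type} {r : V → V → Prop} {t u v : V} (h : r u t) (h' : r v t) :
    Zig r u v := Relation.ReflTransGen.single (Or.inr ⟨t, h, h'⟩)

/-- For a relation that is a partial injection, `Zig` is contained in equality. -/
theorem Zig.eq_of_injective {V : Type} {r : V → V → Prop}
    (h1 : ∀ t u v, r t u → r t v → u = v) (h2 : ∀ t u v, r u t → r v t → u = v) {u v : V}
    (h : Zig r u v) : u = v := by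
  induction h with
  | refl => rfl
  | tail _ h ih =>
    rcases h with ⟨t, h3, h4⟩ | ⟨t, h3, h4⟩
    · exact ih.trans (h1 _ _ _ h3 h4)
    · exact ih.trans (h2 _ _ _ h3 h4)

theorem eval_fw (G : GraphDB A) (a : A) (u v : G.V) : G.Eval (fw a) u v ↔ G.E u a v := by
  simp [fw, eval_char, GraphDB.Step]

theorem eval_bw (G : GraphDB A) (a : A) (u v : G.V) : G.Eval (bw a) u v ↔ G.E v a u := by
  simp [bw, eval_char, GraphDB.Step]

theorem eval_zig (G : GraphDB A) (a : A) (u v : G.V) :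
    G.Eval (zig a) u v ↔ Zig (fun u v => G.E u a v) u v := by
  have : G.Eval (bw a * fw a + fw a * bw a) =
      fun u v => (∃ t, G.E t a u ∧ G.E t a v) ∨ (∃ t, G.E u a t ∧ G.E v a t) := by
    funext u v
    apply propext
    rw [eval_add, eval_mul, eval_mul]
    simp only [eval_fw, eval_bw]
  rw [zig, eval_star, this]
  rfl

theorem ans_P₁ (G : GraphDB A) (a : A) (x : Fin 3 → G.V) :
    (theP₁ a).Ans G x ↔
      (∃ s, G.E (x 0) a s ∧ Zig (fun u v => G.E u a v) s (x 1)) ∧
      (∃ s, Zig (fun u v => G.E u a v) (x 1) s ∧ G.E s a (x 2)) := by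
  rw [theP₁, ans_mk3]
  simp only [List.forall_mem_cons, List.not_mem_nil, false_implies, implies_true, and_true,
    eval_mul, eval_fw, eval_zig]

theorem ans_P₂ (G : GraphDB A) (b : A) (x : Fin 3 → G.V) :
    (theP₂ b).Ans G x ↔
      (∃ s, G.E (x 1) b s ∧ Zig (fun u v => G.E u b v) s (x 2)) ∧
      (∃ s, Zig (fun u v => G.E u b v) (x 2) s ∧ G.E s b (x 0)) := by
  rw [theP₂, ans_mk3]
  simp only [List.forall_mem_cons, List.not_mem_nil, false_implies, implies_true, and_true,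
    eval_mul, eval_fw, eval_zig]

theorem ans_Q (G : GraphDB A) (a b : A) (x : Fin 3 → G.V) :
    (theQ a b).Ans G x ↔
      ((∃ s, G.E (x 0) a s ∧ Zig (fun u v => G.E u a v) s (x 1)) ∨
        (∃ s, G.E s b (x 0) ∧ ∃ t, Zig (fun u v => G.E u b v) s t ∧ G.E (x 1) b t)) ∧
      ((∃ s, Zig (fun u v => G.E u a v) (x 1) s ∧ G.E s a (x 2)) ∨
        (∃ s, G.E (x 1) b s ∧ Zig (fun u v => G.E u b v) s (x 2))) ∧
      ((∃ s, Zig (fun u v => G.E u b v) (x 2) s ∧ G.E s b (x 0)) ∨
        (∃ s, G.E s a (x 2) ∧ ∃ t, Zig (fun u v => G.E u a v) s t ∧ G.E (x 0) a t)) := by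
  rw [theQ, ans_mk3]
  simp only [List.forall_mem_cons, List.not_mem_nil, false_implies, implies_true, and_true,
    eval_add, eval_mul, eval_fw, eval_bw, eval_zig]

/-- The query is equivalent to the union of the two acyclic queries. -/
theorem Q_iff (G : GraphDB A) (a b : A) (x : Fin 3 → G.V) :
    (theQ a b).Ans G x ↔ ((theP₁ a).Ans G x ∨ (theP₂ b).Ans G x) := by
  rw [ans_Q, ans_P₁, ans_P₂]
  constructor
  · rintro ⟨⟨s, hs1, hs2⟩ | ⟨s, hs1, t, hs2, hs3⟩, ⟨u, hu1, hu2⟩ | ⟨u, hu1, hu2⟩,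
      ⟨v, hv1, hv2⟩ | ⟨v, hv1, w, hv2, hv3⟩⟩
    · exact Or.inl ⟨⟨s, hs1, hs2⟩, ⟨u, hu1, hu2⟩⟩
    · exact Or.inl ⟨⟨s, hs1, hs2⟩, ⟨u, hu1, hu2⟩⟩
    · exact Or.inr ⟨⟨u, hu1, hu2⟩, ⟨v, hv1, hv2⟩⟩
    · -- x a s, s W y ; y b u W' z ; v a z, v W w, x a w
      exact Or.inl ⟨⟨s, hs1, hs2⟩,
        ⟨v, hs2.symm.trans ((Zig.co (r := fun u v => G.E u a v) hs1 hv3).trans hv2.symm), hv1⟩⟩
    · -- s b x, s W' t, y b t ; y W u a z ; z W' v b x
      exact Or.inr ⟨⟨t, hs3, hs2.symm.trans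
        ((Zig.ct (r := fun u v => G.E u b v) hs1 hv2).trans hv1.symm)⟩, ⟨v, hv1, hv2⟩⟩
    · -- s b x, s W' t, y b t ; y W u a z ; v a z, v W w, x a w
      exact Or.inl ⟨⟨w, hv3, hv2.symm.trans
        ((Zig.ct (r := fun u v => G.E u a v) hv1 hu2).trans hu1.symm)⟩, ⟨u, hu1, hu2⟩⟩
    · exact Or.inr ⟨⟨u, hu1, hu2⟩, ⟨v, hv1, hv2⟩⟩
    · -- s b x, s W' t, y b t ; y b u W' z ; v a z, v W w, x a w
      exact Or.inr ⟨⟨u, hu1, hu2⟩, ⟨s, hu2.symm.trans
        ((Zig.co (r := fun u v => G.E u b v) hu1 hs3).trans hs2.symm), hs1⟩⟩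
  · rintro (⟨⟨s, hs1, hs2⟩, ⟨u, hu1, hu2⟩⟩ | ⟨⟨u, hu1, hu2⟩, ⟨v, hv1, hv2⟩⟩)
    · exact ⟨Or.inl ⟨s, hs1, hs2⟩, Or.inl ⟨u, hu1, hu2⟩,
        Or.inr ⟨u, hu2, s, (hs2.trans hu1).symm, hs1⟩⟩
    · exact ⟨Or.inr ⟨v, hv2, u, (hu2.trans hv1).symm, hu1⟩, Or.inr ⟨u, hu1, hu2⟩,
        Or.inl ⟨v, hv1, hv2⟩⟩

/-! ### Acyclicity of the two queries -/

/-- A graph on the three vertices `c`, `d`, `e` in which `c` and `d` are not adjacent is
acyclic. -/
theorem acyclic_of_nonadj (H : SimpleGraph (Fin 3)) (c d e : Fin 3)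
    (hcov : ∀ t, t = c ∨ t = d ∨ t = e) (hn : ¬ H.Adj c d) : H.IsAcyclic := by
  rw [SimpleGraph.isAcyclic_iff_forall_adj_isBridge]
  -- a vertex whose only neighbour is `e` becomes isolated
  have key : ∀ u, (∀ w, H.Adj u w → w = e) → u ≠ e →
      ¬ (H.deleteEdges {s(u, e)}).Reachable u e := by
    rintro u hu hue ⟨p⟩
    cases p with
    | nil => exact hue rfl
    | cons h p =>
      rw [SimpleGraph.deleteEdges_adj] at h
      obtain rfl := hu _ h.1
      exact h.2 rfl
  have hc : ∀ w, H.Adj c w → w = e := by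
    intro w hw
    rcases hcov w with rfl | rfl | rfl
    · exact absurd hw (H.loopless.irrefl _)
    · exact absurd hw hn
    · rfl
  have hd : ∀ w, H.Adj d w → w = e := by
    intro w hw
    rcases hcov w with rfl | rfl | rfl
    · exact absurd hw.symm hn
    · exact absurd hw (H.loopless.irrefl _)
    · rfl
  intro u v huv
  rw [SimpleGraph.isBridge_iff]
  have main : ∀ u v, H.Adj u v → (∀ w, H.Adj u w → w = e) →
      ¬ (H.deleteEdges {s(u, v)}).Reachable u v := by
    intro u v huv hu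
    obtain rfl := hu v huv
    exact key u hu huv.ne
  have main2 : ∀ u v, H.Adj u v → (∀ w, H.Adj v w → w = e) →
      ¬ (H.deleteEdges {s(u, v)}).Reachable u v := by
    intro u v huv hv hr
    rw [Sym2.eq_swap] at hr
    exact main v u huv.symm hv hr.symm
  rcases hcov u with rfl | rfl | rfl
  · exact main _ _ huv hc
  · exact main _ _ huv hd
  · rcases hcov v with rfl | rfl | rfl
    · exact main2 _ _ huv hc
    · exact main2 _ _ huv hd
    · exact absurd huv (H.loopless.irrefl _)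

theorem acyclic_P₁ (a : A) : (theP₁ a).Acyclic := by
  refine acyclic_of_nonadj _ 0 2 1 (by decide) ?_
  rintro ⟨-, R, h | h⟩
  · have h' : ((0 : Fin 3), R, (2 : Fin 3)) ∈
      [((0 : Fin 3), fw a * zig a, (1 : Fin 3)), (1, zig a * fw a, 2)] := h
    simp at h'
  · have h' : ((2 : Fin 3), R, (0 : Fin 3)) ∈
      [((0 : Fin 3), fw a * zig a, (1 : Fin 3)), (1, zig a * fw a, 2)] := h
    simp at h'

theorem acyclic_P₂ (b : A) : (theP₂ b).Acyclic := by
  refine acyclic_of_nonadj _ 0 1 2 (by decide) ?_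
  rintro ⟨-, R, h | h⟩
  · have h' : ((0 : Fin 3), R, (1 : Fin 3)) ∈
      [((1 : Fin 3), fw b * zig b, (2 : Fin 3)), (2, zig b * fw b, 0)] := h
    simp at h'
  · have h' : ((1 : Fin 3), R, (0 : Fin 3)) ∈
      [((1 : Fin 3), fw b * zig b, (2 : Fin 3)), (2, zig b * fw b, 0)] := h
    simp at h'

theorem semAcyclic_Q (a b : A) : (theQ a b).SemanticallyAcyclic := by
  refine ⟨[theP₁ a, theP₂ b], ?_, ?_⟩
  · intro P hP
    simp only [List.mem_cons, List.not_mem_nil, or_false] at hP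
    rcases hP with rfl | rfl
    · exact ⟨acyclic_P₁ a, fun _ _ => Iff.rfl⟩
    · exact ⟨acyclic_P₂ b, fun _ _ => Iff.rfl⟩
  · intro G x
    rw [Q_iff]
    simp

/-! ### Databases -/

/-- The path `0 → 1 → 2`. -/
def r₁ (i j : Fin 3) : Prop := (i = 0 ∧ j = 1) ∨ (i = 1 ∧ j = 2)

/-- The path `1 → 2 → 0`. -/
def r₂ (i j : Fin 3) : Prop := (i = 1 ∧ j = 2) ∨ (i = 2 ∧ j = 0)

/-- The image of a relation under a map. -/
def im {W : Type} (e : Fin 3 → W) (r : Fin 3 → Fin 3 → Prop) (u v : W) : Prop :=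
  ∃ i j, r i j ∧ e i = u ∧ e j = v

/-- The database with an `a`-path `e 0 → e 1 → e 2` and a `b`-path `f 1 → f 2 → f 0`. -/
def db (a b : A) {W : Type} (hW : Finite W) (e f : Fin 3 → W) : GraphDB A where
  V := W
  finV := hW
  E u l v := (l = a ∧ im e r₁ u v) ∨ (l = b ∧ im f r₂ u v)

/-- the `a`-path alone -/
def D₁ (a : A) : GraphDB A where
  V := Fin 3
  finV := inferInstance
  E u l v := l = a ∧ r₁ u v

/-- the `b`-path alone -/
def D₂ (b : A) : GraphDB A where
  V := Fin 3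
  finV := inferInstance
  E u l v := l = b ∧ r₂ u v

theorem r₁_fun {i j k : Fin 3} (h : r₁ i j) (h' : r₁ i k) : j = k := by
  revert h h'; unfold r₁; revert i j k; decide

theorem r₁_inj {i j k : Fin 3} (h : r₁ j i) (h' : r₁ k i) : j = k := by
  revert h h'; unfold r₁; revert i j k; decide

theorem r₂_fun {i j k : Fin 3} (h : r₂ i j) (h' : r₂ i k) : j = k := by
  revert h h'; unfold r₂; revert i j k; decide

theorem r₂_inj {i j k : Fin 3} (h : r₂ j i) (h' : r₂ k i) : j = k := by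
  revert h h'; unfold r₂; revert i j k; decide

theorem r₁_comp {i j l : Fin 3} (h : r₁ i j) (h' : r₁ j l) : i = 0 ∧ j = 1 ∧ l = 2 := by
  revert h h'; unfold r₁; revert i j l; decide

theorem r₂_comp {i j l : Fin 3} (h : r₂ i j) (h' : r₂ j l) : i = 1 ∧ j = 2 ∧ l = 0 := by
  revert h h'; unfold r₂; revert i j l; decide

theorem zig_im_eq {W : Type} {e : Fin 3 → W} (he : Function.Injective e)
    {r : Fin 3 → Fin 3 → Prop} (h1 : ∀ i j k, r i j → r i k → j = k)
    (h2 : ∀ i j k, r j i → r k i → j = k) {u v : W} (h : Zig (im e r) u v) : u = v := by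
  refine Zig.eq_of_injective ?_ ?_ h
  · rintro t u v ⟨i, j, h, rfl, rfl⟩ ⟨i', k, h', hi, rfl⟩
    obtain rfl := he hi
    rw [h1 _ _ _ h h']
  · rintro t u v ⟨i, j, h, rfl, rfl⟩ ⟨k, j', h', rfl, hj⟩
    obtain rfl := he hj
    rw [h2 _ _ _ h h']

theorem P₁_db {a b : A} (hab : a ≠ b) {W : Type} (hW : Finite W) {e f : Fin 3 → W}
    (he : Function.Injective e) {x : Fin 3 → W} (h : (theP₁ a).Ans (db a b hW e f) x) :
    ∀ i, x i = e i := by
  have h := (ans_P₁ _ _ _).1 h
  have hr : (fun u v => (db a b hW e f).E u a v) = im e r₁ := by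
    funext u v
    simp [db, hab]
  obtain ⟨⟨s, hs1, hs2⟩, ⟨t, ht1, ht2⟩⟩ := h
  rw [hr] at hs2 ht1
  have hs1' : im e r₁ (x 0) s := by rw [← hr]; exact hs1
  have ht2' : im e r₁ t (x 2) := by rw [← hr]; exact ht2
  have e1 : s = x 1 := zig_im_eq he (r := r₁) (fun _ _ _ => r₁_fun) (fun _ _ _ => r₁_inj) hs2
  have e2 : x 1 = t := zig_im_eq he (r := r₁) (fun _ _ _ => r₁_fun) (fun _ _ _ => r₁_inj) ht1
  obtain ⟨i, j, hij, hi, hj⟩ := hs1'
  obtain ⟨k, l, hkl, hk, hl⟩ := ht2'
  have hjk : j = k := he (by rw [hj, hk, e1, e2])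
  subst hjk
  obtain ⟨rfl, rfl, rfl⟩ := r₁_comp hij hkl
  intro c
  fin_cases c
  · exact hi.symm
  · exact e2.trans hk.symm
  · exact hl.symm

theorem P₂_db {a b : A} (hab : a ≠ b) {W : Type} (hW : Finite W) {e f : Fin 3 → W}
    (hf : Function.Injective f) {x : Fin 3 → W} (h : (theP₂ b).Ans (db a b hW e f) x) :
    ∀ i, x i = f i := by
  have h := (ans_P₂ _ _ _).1 h
  have hr : (fun u v => (db a b hW e f).E u b v) = im f r₂ := by
    funext u v
    simp [db, hab.symm]
  obtain ⟨⟨s, hs1, hs2⟩, ⟨t, ht1, ht2⟩⟩ := h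
  rw [hr] at hs2 ht1
  have hs1' : im f r₂ (x 1) s := by rw [← hr]; exact hs1
  have ht2' : im f r₂ t (x 0) := by rw [← hr]; exact ht2
  have e1 : s = x 2 := zig_im_eq hf (r := r₂) (fun _ _ _ => r₂_fun) (fun _ _ _ => r₂_inj) hs2
  have e2 : x 2 = t := zig_im_eq hf (r := r₂) (fun _ _ _ => r₂_fun) (fun _ _ _ => r₂_inj) ht1
  obtain ⟨i, j, hij, hi, hj⟩ := hs1'
  obtain ⟨k, l, hkl, hk, hl⟩ := ht2'
  have hjk : j = k := hf (by rw [hj, hk, e1, e2])
  subst hjk
  obtain ⟨rfl, rfl, rfl⟩ := r₂_comp hij hkl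
  intro c
  fin_cases c
  · exact hl.symm
  · exact hi.symm
  · exact e2.trans hk.symm

theorem Q_D₁ (a b : A) : (theQ a b).Ans (D₁ a) (id : Fin 3 → Fin 3) := by
  refine (Q_iff _ _ _ _).2 (Or.inl ((ans_P₁ _ _ _).2 ?_))
  exact ⟨⟨(1 : Fin 3), ⟨rfl, Or.inl ⟨rfl, rfl⟩⟩, Relation.ReflTransGen.refl⟩,
    ⟨(1 : Fin 3), Relation.ReflTransGen.refl, ⟨rfl, Or.inr ⟨rfl, rfl⟩⟩⟩⟩

theorem Q_D₂ (a b : A) : (theQ a b).Ans (D₂ b) (id : Fin 3 → Fin 3) := by
  refine (Q_iff _ _ _ _).2 (Or.inr ((ans_P₂ _ _ _).2 ?_))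
  exact ⟨⟨(2 : Fin 3), ⟨rfl, Or.inl ⟨rfl, rfl⟩⟩, Relation.ReflTransGen.refl⟩,
    ⟨(2 : Fin 3), Relation.ReflTransGen.refl, ⟨rfl, Or.inr ⟨rfl, rfl⟩⟩⟩⟩

/-! ### The gluing argument -/

/-- The second embedding into the glued vertex set: `q` is identified with `p`. -/
def emb (p q : Fin 3) (j : Fin 3) : Fin 3 ⊕ Fin 3 := if j = q then Sum.inl p else Sum.inr j

theorem emb_inj (p q : Fin 3) : Function.Injective (emb p q) := by
  intro i j h
  unfold emb at h
  split_ifs at h with h1 h2 h2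
  · rw [h1, h2]
  · exact Sum.inr.inj h

theorem emb_eq_inl {p q i j : Fin 3} (h : emb p q j = Sum.inl i) : j = q ∧ i = p := by
  unfold emb at h
  split_ifs at h with h1
  exact ⟨h1, (Sum.inl.inj h).symm⟩

open Classical in
/-- If `Q'` is equivalent to `Q`, then solutions in the two databases can be glued along a
vertex `m` that separates the set `S` of variables from the rest. -/
theorem glue {a b : A} (hab : a ≠ b) (Q' : C2RPQ A 3) (hQ : (theQ a b).Equivalent Q')
    {h₁ h₂ : Fin Q'.nvar → Fin 3} (ho₁ : ∀ i, h₁ (Q'.out i) = i) (ho₂ : ∀ i, h₂ (Q'.out i) = i)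
    (ha₁ : ∀ t ∈ Q'.atoms, (D₁ a).Eval t.2.1 (h₁ t.1) (h₁ t.2.2))
    (ha₂ : ∀ t ∈ Q'.atoms, (D₂ b).Eval t.2.1 (h₂ t.1) (h₂ t.2.2))
    (m : Fin Q'.nvar) (S : Set (Fin Q'.nvar)) (hm : m ∉ S)
    (hS : ∀ u v, Q'.graph.Adj u v → u ∈ S → v ∈ S ∨ v = m) :
    (∀ i, (if Q'.out i ∈ S then Sum.inl i else emb (h₁ m) (h₂ m) i) = Sum.inl i) ∨
    (∀ i, (if Q'.out i ∈ S then Sum.inl i else emb (h₁ m) (h₂ m) i) =
      emb (h₁ m) (h₂ m) i) := by
  set f := emb (h₁ m) (h₂ m) with hf
  let e : Fin 3 → Fin 3 ⊕ Fin 3 := Sum.inl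
  let G : GraphDB A := db a b (inferInstance : Finite (Fin 3 ⊕ Fin 3)) e f
  let h : Fin Q'.nvar → Fin 3 ⊕ Fin 3 := fun v => if v ∈ S then e (h₁ v) else f (h₂ v)
  have hfm : f (h₂ m) = e (h₁ m) := by simp [hf, emb, e]
  have map₁ : ∀ R u v, (D₁ a).Eval R u v → G.Eval R (e u) (e v) := fun R u v =>
    eval_map (G := D₁ a) (H := G) e (fun u l v huv => Or.inl ⟨huv.1, u, v, huv.2, rfl, rfl⟩) R u v
  have map₂ : ∀ R u v, (D₂ b).Eval R u v → G.Eval R (f u) (f v) := fun R u v =>
    eval_map (G := D₂ b) (H := G) f (fun u l v huv => Or.inr ⟨huv.1, u, v, huv.2, rfl, rfl⟩) R u v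
  have hans : Q'.Ans G (fun i => if Q'.out i ∈ S then Sum.inl i else f i) := by
    refine ⟨h, ?_, ?_⟩
    · intro i
      simp only [h, e, ho₁, ho₂]
      rfl
    · rintro ⟨u, R, v⟩ ht
      have h1 := map₁ _ _ _ (ha₁ _ ht)
      have h2 := map₂ _ _ _ (ha₂ _ ht)
      dsimp only at h1 h2 ⊢
      by_cases hu : u ∈ S
      · by_cases hv : v ∈ S
        · simpa only [h, hu, hv, if_true] using h1
        · have hvm : v = m := by
            have huv : u ≠ v := fun huv => hv (huv ▸ hu)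
            rcases hS u v ⟨huv, R, Or.inl ht⟩ hu with h' | h'
            · exact absurd h' hv
            · exact h'
          subst hvm
          simpa only [h, hu, hv, if_true, if_false, hfm] using h1
      · by_cases hv : v ∈ S
        · have hum : u = m := by
            have huv : v ≠ u := fun huv => hu (huv ▸ hv)
            rcases hS v u ⟨huv, R, Or.inr ht⟩ hv with h' | h'
            · exact absurd h' hu
            · exact h'
          subst hum
          simpa only [h, hu, hv, if_true, if_false, hfm] using h1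
        · simpa only [h, hu, hv, if_false] using h2
  rcases (Q_iff _ _ _ _).1 ((hQ _ _).2 hans) with h' | h'
  · exact Or.inl (P₁_db hab _ Sum.inl_injective h')
  · exact Or.inr (P₂_db hab _ (emb_inj _ _) h')

/-- The main negative statement. -/
theorem not_equivalent {a b : A} (hab : a ≠ b) (Q' : C2RPQ A 3) (hac : Q'.Acyclic) :
    ¬ (theQ a b).Equivalent Q' := by
  classical
  intro hQ
  obtain ⟨h₁, ho₁, ha₁⟩ := (hQ _ _).1 (Q_D₁ a b)
  obtain ⟨h₂, ho₂, ha₂⟩ := (hQ _ _).1 (Q_D₂ a b)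
  change Fin Q'.nvar → Fin 3 at h₁ h₂
  simp only [id] at ho₁ ho₂
  -- the variables of the output tuple
  set X := Q'.out 0 with hX
  set Y := Q'.out 1 with hY
  set Z := Q'.out 2 with hZ
  -- the vertices reachable from `c` avoiding `m`
  let S : Fin Q'.nvar → Fin Q'.nvar → Set (Fin Q'.nvar) :=
    fun m c => {v | ∃ w : Q'.graph.Walk c v, m ∉ w.support}
  have Sm : ∀ m c, m ∉ S m c := by
    rintro m c ⟨w, hw⟩
    exact hw w.end_mem_support
  have Scl : ∀ m c u v, Q'.graph.Adj u v → u ∈ S m c → v ∈ S m c ∨ v = m := by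
    rintro m c u v huv ⟨w, hw⟩
    by_cases hvm : v = m
    · exact Or.inr hvm
    · refine Or.inl ⟨w.concat huv, ?_⟩
      rw [SimpleGraph.Walk.support_concat]
      simp only [List.mem_append, List.mem_singleton, not_or]
      exact ⟨hw, fun h => hvm h.symm⟩
  have Sself : ∀ m c, c ≠ m → c ∈ S m c := by
    intro m c hc
    exact ⟨SimpleGraph.Walk.nil, by simpa using hc.symm⟩
  -- first separation statement
  have sepX : ∀ m, Y ∉ S m X → Z ∉ S m X → h₁ m = 0 := by
    intro m hYm hZm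
    by_cases hXm : X = m
    · rw [← hXm]; exact ho₁ 0
    have hXS : X ∈ S m X := Sself m X hXm
    rcases glue hab Q' hQ ho₁ ho₂ ha₁ ha₂ m (S m X) (Sm m X) (Scl m X) with h | h
    · have h1 := h 1
      have h2 := h 2
      rw [if_neg hYm] at h1
      rw [if_neg hZm] at h2
      have := (emb_eq_inl h1).1.trans (emb_eq_inl h2).1.symm
      exact absurd this (by decide)
    · have h0 := h 0
      rw [if_pos hXS] at h0
      exact (emb_eq_inl h0.symm).2.symm
  have sepY : ∀ m, X ∉ S m Y → Z ∉ S m Y → h₁ m = 1 := by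
    intro m hXm hZm
    by_cases hYm : Y = m
    · rw [← hYm]; exact ho₁ 1
    have hYS : Y ∈ S m Y := Sself m Y hYm
    rcases glue hab Q' hQ ho₁ ho₂ ha₁ ha₂ m (S m Y) (Sm m Y) (Scl m Y) with h | h
    · have h1 := h 0
      have h2 := h 2
      rw [if_neg hXm] at h1
      rw [if_neg hZm] at h2
      have := (emb_eq_inl h1).1.trans (emb_eq_inl h2).1.symm
      exact absurd this (by decide)
    · have h0 := h 1
      rw [if_pos hYS] at h0
      exact (emb_eq_inl h0.symm).2.symm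
  by_cases hXY : Q'.graph.Reachable X Y
  · -- walk along the path from `X` to `Y`
    obtain ⟨P, hP⟩ := hXY.exists_isPath
    have hY1 : Y ∉ {v | h₁ v = 0} := by
      intro h
      have h' : h₁ Y = 0 := h
      rw [ho₁ 1] at h'
      exact absurd h' (by decide)
    obtain ⟨d, hd, hd1, hd2⟩ := P.exists_boundary_dart {v | h₁ v = 0} (ho₁ 0) hY1
    have huniq : ∀ w : Q'.graph.Walk X Y, w.bypass = P := by
      intro w
      have := hac.subsingleton_path X Y |>.elim ⟨w.bypass, w.bypass_isPath⟩ ⟨P, hP⟩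
      exact congrArg Subtype.val this
    have hsep : ∀ m ∈ P.support, Y ∉ S m X := by
      rintro m hm ⟨w, hw⟩
      apply hw
      apply w.support_bypass_subset_support
      rw [huniq w]
      exact hm
    have hsep' : ∀ m ∈ P.support, X ∉ S m Y := by
      rintro m hm ⟨w, hw⟩
      refine hsep m hm ⟨w.reverse, ?_⟩
      simpa using hw
    have hm1 : d.fst ∈ P.support := P.dart_fst_mem_support_of_mem_darts hd
    have hm2 : d.snd ∈ P.support := P.dart_snd_mem_support_of_mem_darts hd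
    -- `Z` is joined to `Y` avoiding `d.fst`
    have c1 : Z ∈ S d.fst Y := by
      by_contra hZ1
      have := sepY d.fst (hsep' _ hm1) hZ1
      have h0 : h₁ d.fst = 0 := hd1
      rw [h0] at this
      exact absurd this (by decide)
    have c2 : Z ∈ S d.snd X := by
      by_contra hZ1
      exact hd2 (sepX d.snd (hsep _ hm2) hZ1)
    obtain ⟨w1, hw1⟩ := c1
    obtain ⟨w2, hw2⟩ := c2
    have hedge : d.edge ∈ P.edges := List.mem_map_of_mem hd
    rw [← huniq (w2.append w1.reverse)] at hedge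
    have hedge' := SimpleGraph.Walk.edges_bypass_subset_edges _ hedge
    rw [SimpleGraph.Walk.edges_append, List.mem_append] at hedge'
    rcases hedge' with h | h
    · exact hw2 (SimpleGraph.Walk.snd_mem_support_of_mem_edges w2 h)
    · rw [SimpleGraph.Walk.edges_reverse, List.mem_reverse] at h
      exact hw1 (SimpleGraph.Walk.fst_mem_support_of_mem_edges w1 h)
  · -- `X` and `Y` lie in different components: glue at `Z`
    have hYS : Y ∉ S Z X := fun ⟨w, _⟩ => hXY ⟨w⟩
    have := sepX Z hYS (Sm Z X)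
    rw [ho₁ 2] at this
    exact absurd this (by decide)

/-- **Main result.** For every finite alphabet `A` with at least two letters there is a C2RPQ
(with three distinct free variables) that is semantically acyclic, that is, equivalent to an
acyclic UC2RPQ, but is not equivalent to any single acyclic C2RPQ. -/
theorem result (A : Type) [Finite A] [Nontrivial A] :
    ∃ Q : C2RPQ A 3, Function.Injective Q.out ∧ Q.SemanticallyAcyclic ∧
      ∀ Q' : C2RPQ A 3, Q'.Acyclic → ¬ Q.Equivalent Q' := by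
  obtain ⟨a, b, hab⟩ := exists_pair_ne A
  exact ⟨theQ a b, fun _ _ h => h, semAcyclic_Q a b, fun Q' hQ' => not_equivalent hab Q' hQ'⟩

end Pool.Agent.Results.MP_968ae6_lc.NotSingleAcyclic
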